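import Pool.Agent.Helper52.KP.StF

/-!
# Project KP (MP_26be5b_ag): module FF6 (the potential in the chart)
-/

set_option autoImplicit false

namespace Pool.Agent.Helper82.KP

open Pool.Agent.Helper52.KP Pool.Agent.Helper67.NO MeasureTheory Filter
open scoped ContDiff ComplexOrder Topology

universe u

theorem hFF6 (hRHO : StRHO.{u}) (hTAN : StTAN.{u}) : StFF6.{u} := by
  intro g _ _ _ _ x₀ hx₀ hnil ρ hρ C y rd K hK
  subst hK
  have hopen : IsOpen {z : Fin C.m → ℂ | MvPolynomial.eval z C.Δ ≠ 0} :=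
    isOpen_ne.preimage (MvPolynomial.continuous_eval C.Δ)
  have hhol : HolMap {z : Fin C.m → ℂ | MvPolynomial.eval z C.Δ ≠ 0} C.Φ := by
    have h : Differentiable ℂ (fun z => co (C.Φ z)) := by
      rw [differentiable_pi]
      intro i
      obtain ⟨P, hP⟩ := C.poly i
      have e : (fun z => co (C.Φ z) i) = fun z => MvPolynomial.eval z P := funext hP
      rw [e]
      exact fun z => ((AnalyticOnNhd.eval_mvPolynomial (𝕜 := ℂ) P) z (Set.mem_univ z)).differentiableAt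
    exact h.differentiableOn
  have horb : ∀ z ∈ {z : Fin C.m → ℂ | MvPolynomial.eval z C.Δ ≠ 0}, Orb x₀ (C.Φ z) :=
    fun z hz => C.orb z hz
  obtain ⟨h1, -, h3⟩ := hRHO g x₀ hx₀ hnil ρ hρ C.m _ hopen C.Φ hhol horb
  have hT := hTAN g x₀ hx₀ hnil C.m _ hopen C.Φ hhol horb
  have hsz : ∀ z : Fin C.m → ℂ, (mkCone C ρ y rd).sz z = size (C.Φ z) := by
    intro z
    change ∑ i, ‖MvPolynomial.eval z (C.pol i)‖ = ∑ i, ‖co (C.Φ z) i‖
    exact Finset.sum_congr rfl fun i _ => by rw [C.pol_spec i z]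
  refine ⟨h1, ?_, ?_, ?_⟩
  · intro z hz
    have hz' : MvPolynomial.eval z C.Δ ≠ 0 := hz
    obtain ⟨Z, hZ⟩ := hT z hz'
    have hdet := C.kks z hz' Z hZ
    obtain ⟨h4, h5⟩ := h3 C.hrk z hz' Z hZ
    refine ⟨h5 ?_, ?_⟩
    · intro h0
      rw [h0, norm_zero] at hdet
      exact C.J0 z hz' (norm_eq_zero.mp (pow_eq_zero_iff (two_ne_zero)|>.mp hdet.symm))
    · rw [hdet] at h4
      exact h4
  · obtain ⟨a, b, ha, hab⟩ := hρ.bounded
    refine ⟨a, b, ha, fun z hz => ?_⟩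
    rw [hsz z]
    exact hab (C.Φ z) (C.orb z hz)
  · intro z hz c hc
    change ρ (C.Φ (scl C.w c z)) = ‖c‖ * ρ (C.Φ z)
    rw [C.hom]
    exact (hρ.cone (C.Φ z) (C.orb z hz) c hc).2

end Pool.Agent.Helper82.KP
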